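import Mathlib
import Pool.Agent.H171R2.EPDefs
import Pool.Agent.Y27.EP.DS4

set_option autoImplicit false

namespace Pool.Agent.Results.MP_a9a483_co.DoubleSplit

open SimpleGraph Pool.Agent.H171R2.EP Pool.Agent.Y27.EP

/-- Double split graphs (one of the basic classes of the strong perfect graph theorem) and Q1. Let
`M` be a `0`-`1`-matrix with at least three rows and at least three columns.

(1) The double split graph `dsplit M` is even-pair-free if and only if no two rows of `M` are equal
or complementary, and its complement is even-pair-free if and only if no two columns are.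

(2) If no two rows are equal or complementary, `dsplit M` is a counterexample to the statement of
Q1: it is Berge and even-pair-free, neither it nor its complement is the line graph of a bipartite
graph, and it has no 2-join; moreover it has no homogeneous set, so it does not arise from smaller
graphs by substitution. If no two columns are equal or complementary either, then the complement is
even-pair-free too and has no 2-join either.

(3) There are such counterexamples (without homogeneous sets) with exactly `2 k` vertices for every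
`k ≥ 6`, and with exactly `4 k` vertices and the additional property of the complement for every
`k ≥ 3`. -/
theorem result :
    (∀ (m n : ℕ) (M : Fin m → Fin n → Bool), 3 ≤ m → 3 ≤ n →
      (EvenPairFree (dsplit M) ↔
        ∀ i i' : Fin m, i ≠ i' → (∃ j, M i j = M i' j) ∧ (∃ j, M i j ≠ M i' j)) ∧
      (EvenPairFree (dsplit M)ᶜ ↔
        ∀ j j' : Fin n, j ≠ j' → (∃ i, M i j = M i j') ∧ (∃ i, M i j ≠ M i j'))) ∧
    (∀ (m n : ℕ) (M : Fin m → Fin n → Bool), 3 ≤ m → 3 ≤ n →
      (∀ i i' : Fin m, i ≠ i' → (∃ j, M i j = M i' j) ∧ (∃ j, M i j ≠ M i' j)) →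
      IsBerge (dsplit M) ∧ EvenPairFree (dsplit M) ∧
      ¬ IsLineGraphOfBipartite (dsplit M) ∧ ¬ IsLineGraphOfBipartite (dsplit M)ᶜ ∧
      ¬ HasTwoJoin (dsplit M) ∧ NoHomogeneousSet (dsplit M) ∧
      ((∀ j j' : Fin n, j ≠ j' → (∃ i, M i j = M i j') ∧ (∃ i, M i j ≠ M i j')) →
        EvenPairFree (dsplit M)ᶜ ∧ ¬ HasTwoJoin (dsplit M)ᶜ)) ∧
    (∀ k : ℕ, 6 ≤ k → ∃ G : SimpleGraph (Fin (2 * k)),
      IsBerge G ∧ EvenPairFree G ∧ ¬ IsLineGraphOfBipartite G ∧ ¬ IsLineGraphOfBipartite Gᶜ ∧
      ¬ HasTwoJoin G ∧ NoHomogeneousSet G) ∧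
    (∀ k : ℕ, 3 ≤ k → ∃ G : SimpleGraph (Fin (4 * k)),
      IsBerge G ∧ EvenPairFree G ∧ ¬ IsLineGraphOfBipartite G ∧ ¬ IsLineGraphOfBipartite Gᶜ ∧
      ¬ HasTwoJoin G ∧ NoHomogeneousSet G ∧ EvenPairFree Gᶜ ∧ ¬ HasTwoJoin Gᶜ) := by
  refine ⟨?_, ?_, ?_, ?_⟩
  · intro m n M hm hn
    refine ⟨ds_epf_iff M (by omega) (by omega), ?_⟩
    rw [← rowsOK_coM, ← ds_epf_iff (coM M) (by omega) (by omega)]
    exact ⟨epf_of_iso (dsCompl M).symm, epf_of_iso (dsCompl M)⟩
  · intro m n M hm hn hR
    obtain ⟨h1, h2, h3, h4, h5, h6⟩ := ds_main M hm hn hR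
    exact ⟨h1, h2, h3, h4, h5, h6, fun hC => ds_main_compl M hm hn ((rowsOK_coM M).2 hC)⟩
  · intro k hk
    obtain ⟨h1, h2, h3, h4, h5, h6⟩ := ds_main (idM 3 (k - 3)) le_rfl (by omega)
      (idM_rows (by omega) (by omega))
    obtain ⟨G, ⟨φ⟩⟩ := exists_fin (N := 2 * k) (by
      simp only [Fintype.card_sum, Fintype.card_prod, Fintype.card_fin, Fintype.card_bool]
      omega) (dsplit (idM 3 (k - 3)))
    exact ⟨G, berge_of_emb φ.toEmbedding h1, epf_of_iso φ.symm h2,
      fun h => h3 (line_of_iso φ.symm h), fun h => h4 (line_of_iso (isoCompl φ).symm h),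
      fun h => h5 (twoJoin_of_iso φ.symm h), prime_of_iso φ h6⟩
  · intro k hk
    obtain ⟨h1, h2, h3, h4, h5, h6⟩ := ds_main (idM k k) hk hk (idM_rows hk le_rfl)
    obtain ⟨h7, h8⟩ := ds_main_compl (idM k k) hk hk (idM_cols hk)
    obtain ⟨G, ⟨φ⟩⟩ := exists_fin (N := 4 * k) (by
      simp only [Fintype.card_sum, Fintype.card_prod, Fintype.card_fin, Fintype.card_bool]
      omega) (dsplit (idM k k))
    exact ⟨G, berge_of_emb φ.toEmbedding h1, epf_of_iso φ.symm h2,
      fun h => h3 (line_of_iso φ.symm h), fun h => h4 (line_of_iso (isoCompl φ).symm h),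
      fun h => h5 (twoJoin_of_iso φ.symm h), prime_of_iso φ h6,
      epf_of_iso (isoCompl φ).symm h7, fun h => h8 (twoJoin_of_iso (isoCompl φ).symm h)⟩

end Pool.Agent.Results.MP_a9a483_co.DoubleSplit
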