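import Mathlib
import Pool.Agent.H171R2.EPDefs
import Pool.Agent.Y27.EP.Fin

set_option autoImplicit false

namespace Pool.Agent.Results.MP_a9a483_co.Substitution

open SimpleGraph Pool.Agent.H171R2.EP Pool.Agent.Y27.EP

/-- Let `rookSub H` be the `3 x 3` rook's graph with one vertex replaced by the graph `H`.

(1) For *every* graph `H` with at least two vertices, neither `rookSub H` nor its complement is the
line graph of a bipartite graph, and neither of them has a partition as in condition (a) of the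
definition of a 2-join (so neither has a 2-join). `rookSub H` contains `H` as an induced subgraph;
it is Berge if and only if `H` is, it is even-pair-free if and only if `H` is, and its complement is
even-pair-free if and only if the complement of `H` is.

(2) For every `n ≥ 10` there is such a counterexample with exactly `n` vertices.

(3) For every `k ≥ 2` there is such a counterexample with exactly `8 k + 1` vertices whose
complement is even-pair-free as well. -/
theorem result :
    (∀ (V : Type) (H : SimpleGraph V), Nontrivial V →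
      (IsBerge (rookSub H) ↔ IsBerge H) ∧
      (EvenPairFree (rookSub H) ↔ EvenPairFree H) ∧
      (EvenPairFree (rookSub H)ᶜ ↔ EvenPairFree Hᶜ) ∧
      Nonempty (H ↪g rookSub H) ∧
      ¬ IsLineGraphOfBipartite (rookSub H) ∧ ¬ IsLineGraphOfBipartite (rookSub H)ᶜ ∧
      ¬ HasPartitionA (rookSub H) ∧ ¬ HasPartitionA (rookSub H)ᶜ ∧
      ¬ HasTwoJoin (rookSub H) ∧ ¬ HasTwoJoin (rookSub H)ᶜ) ∧
    (∀ n : ℕ, 10 ≤ n → ∃ G : SimpleGraph (Fin n),
      IsBerge G ∧ EvenPairFree G ∧
      ¬ IsLineGraphOfBipartite G ∧ ¬ IsLineGraphOfBipartite Gᶜ ∧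
      ¬ HasPartitionA G ∧ ¬ HasPartitionA Gᶜ ∧ ¬ HasTwoJoin G ∧ ¬ HasTwoJoin Gᶜ) ∧
    (∀ k : ℕ, 2 ≤ k → ∃ G : SimpleGraph (Fin (8 * k + 1)),
      IsBerge G ∧ EvenPairFree G ∧ EvenPairFree Gᶜ ∧
      ¬ IsLineGraphOfBipartite G ∧ ¬ IsLineGraphOfBipartite Gᶜ ∧
      ¬ HasPartitionA G ∧ ¬ HasPartitionA Gᶜ ∧ ¬ HasTwoJoin G ∧ ¬ HasTwoJoin Gᶜ) := by
  refine ⟨?_, ?_, ?_⟩
  · intro V H hV
    obtain ⟨h, h', hne⟩ := exists_pair_ne V
    exact ⟨berge_sub_iff H, epf_sub_iff H, epf_compl_sub_iff H, ⟨embH H⟩,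
      rookSub_not_line H h h' hne, not_line_compl H h h' hne, rookSub_noA, noA_compl H,
      fun hj => rookSub_noA (HasPartitionA.of_twoJoin hj),
      fun hj => noA_compl H (HasPartitionA.of_twoJoin hj)⟩
  · intro n hn
    obtain ⟨G, h1, h2, h3, h4, h5, h6⟩ := exists_cex n hn
    exact ⟨G, h1, h2, h3, h4, h5, h6, fun hj => h5 (HasPartitionA.of_twoJoin hj),
      fun hj => h6 (HasPartitionA.of_twoJoin hj)⟩
  · intro k hk
    obtain ⟨G, ⟨h1, h2, h3, h4, h5, h6⟩, h7⟩ := exists_cex_self k hk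
    exact ⟨G, h1, h2, h7, h3, h4, h5, h6, fun hj => h5 (HasPartitionA.of_twoJoin hj),
      fun hj => h6 (HasPartitionA.of_twoJoin hj)⟩

end Pool.Agent.Results.MP_a9a483_co.Substitution
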